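import Mathlib

/-!
# The arc lemma (MP_71837e)

Elementary form of the arc lemma of helper91 / Lemma 1D of helper36, in the one-dimensional form of helper52.
`L` at depth `t` is `[-l t, ρ t]`, `0 ≤ t ≤ H`; `P = 0` is its top point.
-/

set_option autoImplicit false

namespace Pool.Agent.H32.F1

open Set

/-- increments of a concave function decrease -/
lemma incr {H : ℝ} {f : ℝ → ℝ} (hf : ConcaveOn ℝ (Icc 0 H) f) {s t a : ℝ} (hs : 0 ≤ s) (hst : s ≤ t) (ha : 0 ≤ a)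
    (h : a + t ≤ H) : f (a + t) - f (a + s) ≤ f t - f s := by
  rcases eq_or_lt_of_le hst with rfl | hst'
  · simp
  rcases eq_or_lt_of_le ha with rfl | ha'
  · simp
  have hD : 0 < a + t - s := by linarith
  set lam : ℝ := (t - s) / (a + t - s) with hlam
  have hl0 : 0 ≤ lam := by rw [hlam]; exact div_nonneg (by linarith) hD.le
  have hl1 : 0 ≤ 1 - lam := by
    rw [hlam, sub_nonneg, div_le_one hD]
    linarith
  have hm : lam * (a + t - s) = t - s := by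
    rw [hlam]
    field_simp
  have h1 := hf.2 (x := s) ⟨hs, by linarith⟩ (y := a + t) ⟨by linarith, h⟩ hl1 hl0 (by ring)
  have h2 := hf.2 (x := s) ⟨hs, by linarith⟩ (y := a + t) ⟨by linarith, h⟩ hl0 hl1 (by ring)
  simp only [smul_eq_mul] at h1 h2
  have e1 : (1 - lam) * s + lam * (a + t) = t := by linarith
  have e2 : lam * s + (1 - lam) * (a + t) = a + s := by linarith
  rw [e1] at h1
  rw [e2] at h2
  linarith

/-- a concave function that has gone down keeps going down -/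
lemma decr {H : ℝ} {f : ℝ → ℝ} (hf : ConcaveOn ℝ (Icc 0 H) f) {a b q : ℝ} (ha : 0 ≤ a) (hab : a < b) (hbq : b ≤ q)
    (hq : q ≤ H) (h : f b ≤ f a) : f q ≤ f b := by
  rcases eq_or_lt_of_le hbq with rfl | hbq'
  · exact le_rfl
  have hD : 0 < q - a := by linarith
  set lam : ℝ := (b - a) / (q - a) with hlam
  have hl0 : 0 < lam := by rw [hlam]; exact div_pos (by linarith) hD
  have hl1 : 0 ≤ 1 - lam := by
    rw [hlam, sub_nonneg, div_le_one hD]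
    linarith
  have hm : lam * (q - a) = b - a := by
    rw [hlam]
    field_simp
  have h1 := hf.2 (x := a) ⟨ha, by linarith⟩ (y := q) ⟨by linarith, hq⟩ hl1 hl0.le (by ring)
  simp only [smul_eq_mul] at h1
  have e1 : (1 - lam) * a + lam * q = b := by linarith
  rw [e1] at h1
  have h2 : lam * f q ≤ lam * f b := by nlinarith
  exact le_of_mul_le_mul_left h2 hl0

/-- case A2, B1 -/
lemma caseA2B1 {H : ℝ} {l ρ : ℝ → ℝ} (hl : ConcaveOn ℝ (Icc 0 H) l) (hρ : ConcaveOn ℝ (Icc 0 H) ρ)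
    (l0 : 0 ≤ l 0) (ρ0 : 0 ≤ ρ 0) (hw : ∀ t ∈ Icc 0 H, 0 ≤ l t + ρ t)
    {al0 al1 be0 be1 x0 x1 X0 X1 th tp t00 t01 t10 : ℝ} (hal0 : 0 ≤ al0) (hal1 : 0 ≤ al1) (hbe0 : 0 ≤ be0)
    (hbe1 : 0 ≤ be1) (hx1 : ρ al1 ≤ x1) (hm1 : MonotoneOn ρ (Icc 0 al1)) (hX1 : l be1 ≤ X1)
    (hn1 : MonotoneOn l (Icc 0 be1)) (hth : 0 ≤ th) (o1 : th < t01) (o2 : t01 < tp) (o3 : tp < t00) (o4 : tp < t10)
    (d00 : al0 + t00 ≤ H) (d00' : be0 + t00 ≤ H) (d01' : be1 + t01 ≤ H) (d10 : al1 + t10 ≤ H)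
    (p00 : x0 + X0 ≤ ρ (al0 + t00) + l (be0 + t00)) (p01 : x0 + X1 ≤ ρ (al0 + t01) + l (be1 + t01))
    (g0 : l th + ρ (al0 + th) < x0) (g1 : x1 < l th - l (al1 + th))
    (h0 : ρ tp + l (be0 + tp) < X0) (h1 : be1 + tp ≤ H → ρ tp + l (be1 + tp) < X1) : False := by
  have hwc : ConcaveOn ℝ (Icc 0 H) (fun t => l t + ρ t) := hl.add hρ
  set c : ℝ := al1 + th with hc
  have hcH : c ≤ H := by linarith
  have hal1p : 0 < al1 := by
    rcases eq_or_lt_of_le hal1 with h | h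
    · exfalso
      rw [hc, ← h] at g1
      rw [← h] at hx1
      simp only [zero_add, sub_self] at g1
      linarith
    · exact h
  have hthc : th < c := by linarith
  -- `w c < w th`
  have i1 := incr hρ (s := 0) (t := th) (a := al1) le_rfl hth hal1 (by linarith)
  rw [add_zero] at i1
  have wc : l c + ρ c < l th + ρ th := by linarith
  -- (C)
  have i2 := incr hρ (s := th) (t := t00) (a := al0) hth (by linarith) hal0 d00
  have i3 := incr hl (s := tp) (t := t00) (a := be0) (by linarith) o3.le hbe0 d00'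
  have hC : l th + ρ th + (l tp + ρ tp) < l t00 + ρ t00 := by linarith
  have wtp := hw tp ⟨by linarith, by linarith⟩
  have t00c : t00 < c := by
    by_contra hcon
    push Not at hcon
    have := decr hwc hth hthc hcon (by linarith) wc.le
    linarith
  -- monotonicity facts
  have x1ρ : 0 ≤ x1 := by
    have := hm1 (left_mem_Icc.2 hal1) (right_mem_Icc.2 hal1) hal1
    linarith
  have X1l : 0 ≤ l be1 := by
    have := hn1 (left_mem_Icc.2 hbe1) (right_mem_Icc.2 hbe1) hbe1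
    linarith
  have i4 := incr hρ (s := th) (t := t01) (a := al0) hth o1.le hal0 (by linarith)
  rcases le_or_gt (be1 + t01) c with hv | hv
  · -- (i)
    have hcd : c + (tp - t01) ≤ H := by linarith
    have heH : be1 + tp ≤ H := by linarith
    have h1' := h1 heH
    have i5 := incr hρ (s := t01) (t := tp) (a := be1) (by linarith) o2.le hbe1 heH
    have hwv : l th + ρ th < (l (be1 + t01) + ρ (be1 + t01)) - (l (be1 + tp) + ρ (be1 + tp)) := by linarith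
    have i6 := incr hwc (s := be1 + t01) (t := be1 + tp) (a := c - (be1 + t01)) (by linarith) (by linarith)
      (by linarith) (by linarith)
    have e1 : c - (be1 + t01) + (be1 + tp) = c + (tp - t01) := by ring
    have e2 : c - (be1 + t01) + (be1 + t01) = c := by ring
    rw [e1, e2] at i6
    have wcd := hw (c + (tp - t01)) ⟨by linarith, hcd⟩
    linarith
  · -- (ii)
    have lc : l c ≤ l th := by linarith
    have i7 := decr hl hth hthc hv.le d01' lc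
    have i8 := incr hρ (s := 0) (t := t01 - th) (a := th) le_rfl (by linarith) hth (by linarith)
    rw [add_zero] at i8
    have e3 : th + (t01 - th) = t01 := by ring
    rw [e3] at i8
    have hbig : ρ al1 < ρ (t01 - th) := by linarith
    have : t01 - th ≤ al1 := by linarith
    have := hm1 (a := t01 - th) (b := al1) ⟨by linarith, this⟩ (right_mem_Icc.2 hal1) this
    linarith

/-- half of the case A2, B2 -/
lemma caseA2B2_half {H : ℝ} {l ρ : ℝ → ℝ} (hl : ConcaveOn ℝ (Icc 0 H) l) (hρ : ConcaveOn ℝ (Icc 0 H) ρ)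
    (l0 : 0 ≤ l 0) (ρ0 : 0 ≤ ρ 0)
    {al1 be0 be1 x1 X0 X1 tb t10 : ℝ} (hal1 : 0 ≤ al1) (hbe0 : 0 ≤ be0)
    (hbe1 : 0 ≤ be1) (hx1 : ρ al1 ≤ x1) (hm1 : MonotoneOn ρ (Icc 0 al1)) (hX1 : l be1 ≤ X1)
    (hn1 : MonotoneOn l (Icc 0 be1)) (htb : 0 ≤ tb) (o1 : tb < t10) (hcb : be1 + tb ≤ H)
    (d10 : al1 + t10 ≤ H) (d10' : be0 + t10 ≤ H)
    (p10 : x1 + X0 ≤ ρ (al1 + t10) + l (be0 + t10))
    (h0 : ρ tb + l (be0 + tb) < X0) (h1 : X1 < ρ tb - ρ (be1 + tb)) : al1 < be1 := by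
  have hwc : ConcaveOn ℝ (Icc 0 H) (fun t => l t + ρ t) := hl.add hρ
  set cb : ℝ := be1 + tb with hc
  have X1l : 0 ≤ l be1 := by
    have := hn1 (left_mem_Icc.2 hbe1) (right_mem_Icc.2 hbe1) hbe1
    linarith
  have x1ρ : 0 ≤ x1 := by
    have := hm1 (left_mem_Icc.2 hal1) (right_mem_Icc.2 hal1) hal1
    linarith
  have hbe1p : 0 < be1 := by
    rcases eq_or_lt_of_le hbe1 with h | h
    · exfalso
      rw [hc, ← h] at h1
      simp only [zero_add, sub_self] at h1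
      linarith
    · exact h
  have htbc : tb < cb := by linarith
  have i1 := incr hl (s := 0) (t := tb) (a := be1) le_rfl htb hbe1 hcb
  rw [add_zero] at i1
  have wc : l cb + ρ cb < l tb + ρ tb := by linarith
  -- (B3)
  have i2 := incr hl (s := tb) (t := t10) (a := be0) htb o1.le hbe0 d10'
  have B3 : x1 + (l tb + ρ tb) < ρ (al1 + t10) + l t10 := by linarith
  have i3 := incr hρ (s := 0) (t := t10) (a := al1) le_rfl (by linarith) hal1 d10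
  rw [add_zero] at i3
  have t10c : t10 < cb := by
    by_contra hcon
    push Not at hcon
    have := decr hwc htb htbc hcon (by linarith) wc.le
    linarith
  by_contra hcon
  push Not at hcon
  have hu : cb ≤ al1 + t10 := by linarith
  have i4 := decr hρ htb htbc hu d10 (by linarith)
  have i5 := incr hl (s := 0) (t := t10 - tb) (a := tb) le_rfl (by linarith) htb (by linarith)
  rw [add_zero] at i5
  have e3 : tb + (t10 - tb) = t10 := by ring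
  rw [e3] at i5
  have : t10 - tb ≤ be1 := by linarith
  have := hn1 (a := t10 - tb) (b := be1) ⟨by linarith, this⟩ (right_mem_Icc.2 hbe1) this
  linarith

/-- two nonempty compact intervals that do not meet are separated by a number -/
lemma gap {S T : Set ℝ} (hS : IsCompact S) (hT : IsCompact T) (cS : OrdConnected S) (cT : OrdConnected T)
    (nS : S.Nonempty) (nT : T.Nonempty) (h : ∀ t, ¬ (t ∈ S ∧ t ∈ T)) :
    (∃ g, (∀ s ∈ S, s < g) ∧ (∀ t ∈ T, g < t)) ∨ (∃ g, (∀ t ∈ T, t < g) ∧ (∀ s ∈ S, g < s)) := by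
  obtain ⟨a, haS, ha⟩ := hS.exists_isLeast nS
  obtain ⟨b, hbS, hb⟩ := hS.exists_isGreatest nS
  obtain ⟨c, hcT, hc⟩ := hT.exists_isLeast nT
  obtain ⟨d, hdT, hd⟩ := hT.exists_isGreatest nT
  rcases lt_or_ge b c with h1 | h1
  · left
    exact ⟨(b + c) / 2, fun s hs => by have := hb hs; linarith, fun t ht => by have := hc ht; linarith⟩
  · rcases lt_or_ge d a with h2 | h2
    · right
      exact ⟨(d + a) / 2, fun t ht => by have := hd ht; linarith, fun s hs => by have := ha hs; linarith⟩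
    · exfalso
      rcases le_total a c with h3 | h3
      · exact h c ⟨cS.out haS hbS ⟨h3, h1⟩, hcT⟩
      · exact h a ⟨haS, cT.out hcT hdT ⟨h3, h2⟩⟩

/-- the places `t` (depth of `P`, on the left boundary) of the translates that contain `a = (x, -al)` -/
def RA (H : ℝ) (l ρ : ℝ → ℝ) (al x : ℝ) : Set ℝ :=
  {t | 0 ≤ t ∧ al + t ≤ H ∧ x ≤ l t + ρ (al + t) ∧ l t - l (al + t) ≤ x}

/-- the first condition only -/
def IA (H : ℝ) (l ρ : ℝ → ℝ) (al x : ℝ) : Set ℝ :=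
  {t | 0 ≤ t ∧ al + t ≤ H ∧ x ≤ l t + ρ (al + t)}

lemma IA_eq (H : ℝ) (l ρ : ℝ → ℝ) (al x : ℝ) :
    IA H l ρ al x = Icc 0 (H - al) ∩ (fun t => l t + ρ (al + t)) ⁻¹' (Ici x) := by
  ext t
  simp only [IA, mem_ofPred_eq, mem_inter_iff, mem_Icc, mem_preimage, mem_Ici]
  constructor
  · rintro ⟨h1, h2, h3⟩
    exact ⟨⟨h1, by linarith⟩, h3⟩
  · rintro ⟨⟨h1, h2⟩, h3⟩
    exact ⟨h1, by linarith, h3⟩

lemma contF {H : ℝ} {l ρ : ℝ → ℝ} (cl : ContinuousOn l (Icc 0 H)) (cρ : ContinuousOn ρ (Icc 0 H)) {al : ℝ}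
    (hal : 0 ≤ al) : ContinuousOn (fun t => l t + ρ (al + t)) (Icc 0 (H - al)) := by
  refine ContinuousOn.add (cl.mono (Icc_subset_Icc le_rfl (by linarith))) ?_
  refine cρ.comp (by fun_prop) ?_
  intro t ht
  exact ⟨by linarith [ht.1], by linarith [ht.2]⟩

lemma IA_compact {H : ℝ} {l ρ : ℝ → ℝ} (cl : ContinuousOn l (Icc 0 H)) (cρ : ContinuousOn ρ (Icc 0 H)) {al x : ℝ}
    (hal : 0 ≤ al) : IsCompact (IA H l ρ al x) := by
  rw [IA_eq]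
  exact isCompact_Icc.of_isClosed_subset ((contF cl cρ hal).preimage_isClosed_of_isClosed isClosed_Icc isClosed_Ici)
    inter_subset_left

lemma RA_eq (H : ℝ) (l ρ : ℝ → ℝ) (al x : ℝ) :
    RA H l ρ al x = IA H l ρ al x ∩ (Icc 0 (H - al) ∩ (fun t => l t - l (al + t)) ⁻¹' (Iic x)) := by
  ext t
  simp only [RA, IA, mem_ofPred_eq, mem_inter_iff, mem_Icc, mem_preimage, mem_Iic]
  constructor
  · rintro ⟨h1, h2, h3, h4⟩
    exact ⟨⟨h1, h2, h3⟩, ⟨h1, by linarith⟩, h4⟩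
  · rintro ⟨⟨h1, h2, h3⟩, ⟨_, _⟩, h4⟩
    exact ⟨h1, h2, h3, h4⟩

lemma RA_compact {H : ℝ} {l ρ : ℝ → ℝ} (cl : ContinuousOn l (Icc 0 H)) (cρ : ContinuousOn ρ (Icc 0 H)) {al x : ℝ}
    (hal : 0 ≤ al) : IsCompact (RA H l ρ al x) := by
  rw [RA_eq]
  have c1 : ContinuousOn (fun t => l t - l (al + t)) (Icc 0 (H - al)) := by
    refine ContinuousOn.sub (cl.mono (Icc_subset_Icc le_rfl (by linarith))) ?_
    refine cl.comp (by fun_prop) ?_
    intro t ht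
    exact ⟨by linarith [ht.1], by linarith [ht.2]⟩
  exact (IA_compact cl cρ hal).inter_right (c1.preimage_isClosed_of_isClosed isClosed_Icc isClosed_Iic)

lemma IA_ord {H : ℝ} {l ρ : ℝ → ℝ} (hl : ConcaveOn ℝ (Icc 0 H) l) (hρ : ConcaveOn ℝ (Icc 0 H) ρ) {al x : ℝ}
    (hal : 0 ≤ al) : OrdConnected (IA H l ρ al x) := by
  have h1 : ConcaveOn ℝ (Icc 0 (H - al)) (fun t => ρ (al + t)) := by
    refine (hρ.translate_right al).subset ?_ (convex_Icc _ _)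
    intro t ht
    exact ⟨by linarith [ht.1], by linarith [ht.2]⟩
  have h2 : ConcaveOn ℝ (Icc 0 (H - al)) (fun t => l t + ρ (al + t)) :=
    (hl.subset (Icc_subset_Icc le_rfl (by linarith)) (convex_Icc _ _)).add h1
  have h3 := (h2.convex_ge x).ordConnected
  have e : IA H l ρ al x = {t ∈ Icc 0 (H - al) | x ≤ l t + ρ (al + t)} := by
    rw [IA_eq]
    rfl
  rw [e]
  exact h3

lemma be_mono {H : ℝ} {l : ℝ → ℝ} (hl : ConcaveOn ℝ (Icc 0 H) l) {al x s t : ℝ} (hal : 0 ≤ al) (hs : 0 ≤ s)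
    (hst : s ≤ t) (ht : al + t ≤ H) (h : l t - l (al + t) ≤ x) : l s - l (al + s) ≤ x := by
  have := incr hl hs hst hal ht
  linarith

lemma RA_ord {H : ℝ} {l ρ : ℝ → ℝ} (hl : ConcaveOn ℝ (Icc 0 H) l) (hρ : ConcaveOn ℝ (Icc 0 H) ρ) {al x : ℝ}
    (hal : 0 ≤ al) : OrdConnected (RA H l ρ al x) := by
  refine ⟨fun p hp q hq t ht => ?_⟩
  have i1 : p ∈ IA H l ρ al x := ⟨hp.1, hp.2.1, hp.2.2.1⟩
  have i2 : q ∈ IA H l ρ al x := ⟨hq.1, hq.2.1, hq.2.2.1⟩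
  have h1 := (IA_ord hl hρ hal).out i1 i2 ht
  exact ⟨h1.1, h1.2.1, h1.2.2, be_mono hl hal h1.1 ht.2 hq.2.1 hq.2.2.2⟩

lemma RA_nonempty {H : ℝ} {l ρ : ℝ → ℝ} (cl : ContinuousOn l (Icc 0 H)) (cρ : ContinuousOn ρ (Icc 0 H))
    (l0 : l 0 = 0) (hw : ∀ t ∈ Icc 0 H, 0 ≤ l t + ρ t) {al x : ℝ} (hal : 0 ≤ al) (hx : ρ al ≤ x)
    (h : (IA H l ρ al x).Nonempty) : (RA H l ρ al x).Nonempty := by
  obtain ⟨p, hp, hmin⟩ := (IA_compact cl cρ hal).exists_isLeast h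
  obtain ⟨p0, p1, p2⟩ := hp
  refine ⟨p, p0, p1, p2, ?_⟩
  rcases eq_or_lt_of_le p0 with h0 | h0
  · have := hw al ⟨hal, by linarith⟩
    rw [← h0, add_zero, l0]
    linarith
  · rcases le_or_gt x (l 0 + ρ (al + 0)) with h1 | h1
    · have : p ≤ 0 := hmin ⟨le_rfl, by linarith, h1⟩
      linarith
    · have c := (contF cl cρ hal).mono (Icc_subset_Icc (le_refl (0 : ℝ)) (show p ≤ H - al by linarith))
      have := intermediate_value_Icc p0 c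
      obtain ⟨t, ht, he⟩ := this ⟨h1.le, p2⟩
      have he' : l t + ρ (al + t) = x := he
      have : p ≤ t := hmin ⟨ht.1, by linarith [ht.2], he'.ge⟩
      have e : t = p := le_antisymm ht.2 this
      rw [e] at he'
      have := hw (al + p) ⟨by linarith, p1⟩
      linarith

/-- the data of a gap between `RA` of the point 1 (left) and of the point 0 (right) -/
def Sep (H : ℝ) (l ρ : ℝ → ℝ) (al0 al1 x0 x1 g : ℝ) : Prop :=
  0 ≤ g ∧ l g + ρ (al0 + g) < x0 ∧ (∀ t ∈ IA H l ρ al0 x0, g < t) ∧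
    ((∀ t ∈ IA H l ρ al1 x1, t < g) ∨ (al1 + g ≤ H ∧ x1 < l g - l (al1 + g)))

lemma sep_of_gap {H : ℝ} {l ρ : ℝ → ℝ} (hl : ConcaveOn ℝ (Icc 0 H) l) (hρ : ConcaveOn ℝ (Icc 0 H) ρ)
    {al0 al1 x0 x1 g : ℝ} (hal0 : 0 ≤ al0) (hal1 : 0 ≤ al1) (n0 : (RA H l ρ al0 x0).Nonempty)
    (n1 : (RA H l ρ al1 x1).Nonempty) (h1 : ∀ t ∈ RA H l ρ al1 x1, t < g) (h0 : ∀ t ∈ RA H l ρ al0 x0, g < t) :
    Sep H l ρ al0 al1 x0 x1 g := by
  obtain ⟨r0, hr0⟩ := n0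
  obtain ⟨r1, hr1⟩ := n1
  have g1 := h1 r1 hr1
  have g0 := h0 r0 hr0
  have hg : 0 ≤ g := by linarith [hr1.1]
  have d0 : al0 + g ≤ H := by linarith [hr0.2.1]
  have b0 := be_mono hl hal0 hg g0.le hr0.2.1 hr0.2.2.2
  have f0 : l g + ρ (al0 + g) < x0 := by
    by_contra hcon
    push Not at hcon
    exact lt_irrefl g (h0 g ⟨hg, d0, hcon, b0⟩)
  refine ⟨hg, f0, ?_, ?_⟩
  · intro t ht
    by_contra hcon
    push Not at hcon
    have i2 : r0 ∈ IA H l ρ al0 x0 := ⟨hr0.1, hr0.2.1, hr0.2.2.1⟩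
    have := (IA_ord hl hρ hal0).out ht i2 ⟨hcon, g0.le⟩
    linarith [this.2.2]
  · by_cases d1 : al1 + g ≤ H
    · by_cases b1 : l g - l (al1 + g) ≤ x1
      · left
        intro t ht
        by_contra hcon
        push Not at hcon
        have i1 : r1 ∈ IA H l ρ al1 x1 := ⟨hr1.1, hr1.2.1, hr1.2.2.1⟩
        have := (IA_ord hl hρ hal1).out i1 ht ⟨g1.le, hcon⟩
        exact lt_irrefl g (h1 g ⟨hg, d1, this.2.2, b1⟩)
      · right
        push Not at b1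
        exact ⟨d1, b1⟩
    · left
      push Not at d1
      intro t ht
      linarith [ht.2.1]

lemma key {H : ℝ} {l ρ : ℝ → ℝ} (hl : ConcaveOn ℝ (Icc 0 H) l) (l0 : 0 ≤ l 0) {al be x X t : ℝ}
    (hbe : 0 ≤ be) (hX : l be ≤ X) (ht : 0 ≤ t) (d1 : al + t ≤ H) (d2 : be + t ≤ H)
    (h : x + X ≤ ρ (al + t) + l (be + t)) : t ∈ IA H l ρ al x := by
  have := incr hl (s := 0) (t := t) (a := be) le_rfl ht hbe d2
  rw [add_zero] at this
  exact ⟨ht, d1, by linarith⟩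

lemma core {H : ℝ} {l ρ : ℝ → ℝ} (hl : ConcaveOn ℝ (Icc 0 H) l) (hρ : ConcaveOn ℝ (Icc 0 H) ρ)
    (l0 : 0 ≤ l 0) (ρ0 : 0 ≤ ρ 0) (hw : ∀ t ∈ Icc 0 H, 0 ≤ l t + ρ t)
    {al0 al1 be0 be1 x0 x1 X0 X1 ga gb : ℝ} (hal0 : 0 ≤ al0) (hal1 : 0 ≤ al1) (hbe0 : 0 ≤ be0)
    (hbe1 : 0 ≤ be1) (hx0 : ρ al0 ≤ x0) (hx1 : ρ al1 ≤ x1) (hX0 : l be0 ≤ X0) (hX1 : l be1 ≤ X1)
    (hm1 : MonotoneOn ρ (Icc 0 al1)) (hn1 : MonotoneOn l (Icc 0 be1))
    (P00 : ∃ t, 0 ≤ t ∧ al0 + t ≤ H ∧ be0 + t ≤ H ∧ x0 + X0 ≤ ρ (al0 + t) + l (be0 + t))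
    (P01 : ∃ t, 0 ≤ t ∧ al0 + t ≤ H ∧ be1 + t ≤ H ∧ x0 + X1 ≤ ρ (al0 + t) + l (be1 + t))
    (P10 : ∃ t, 0 ≤ t ∧ al1 + t ≤ H ∧ be0 + t ≤ H ∧ x1 + X0 ≤ ρ (al1 + t) + l (be0 + t))
    (SA : Sep H l ρ al0 al1 x0 x1 ga) (SB : Sep H ρ l be0 be1 X0 X1 gb) : False := by
  obtain ⟨t00, s00, d00, d00', p00⟩ := P00
  obtain ⟨t01, s01, d01, d01', p01⟩ := P01
  obtain ⟨t10, s10, d10, d10', p10⟩ := P10
  have a00 := key hl l0 hbe0 hX0 s00 d00 d00' p00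
  have a01 := key hl l0 hbe1 hX1 s01 d01 d01' p01
  have a10 := key hl l0 hbe0 hX0 s10 d10 d10' p10
  have b00 := key (l := ρ) (ρ := l) (x := X0) (X := x0) hρ ρ0 hal0 hx0 s00 d00' d00 (by linarith)
  have b01 := key (l := ρ) (ρ := l) (x := X1) (X := x0) hρ ρ0 hal0 hx0 s01 d01' d01 (by linarith)
  have b10 := key (l := ρ) (ρ := l) (x := X0) (X := x1) hρ ρ0 hal1 hx1 s10 d10' d10 (by linarith)
  obtain ⟨ga0, fa, Ia, ca⟩ := SA
  obtain ⟨gb0, fb, Ib, cb⟩ := SB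
  have q1 := Ia _ a00
  have q2 := Ia _ a01
  have q3 := Ib _ b00
  have q4 := Ib _ b10
  rcases ca with ca | ⟨ca, ca'⟩
  · rcases cb with cb | ⟨cb, cb'⟩
    · have := ca _ a10
      have := cb _ b01
      linarith
    · -- A1, B2: the mirror image
      have q5 := ca _ a10
      refine caseA2B1 (l := ρ) (ρ := l) (H := H) (al0 := be0) (al1 := be1) (be0 := al0) (be1 := al1) (x0 := X0)
        (x1 := X1) (X0 := x0) (X1 := x1) (th := gb) (tp := ga) (t00 := t00) (t01 := t10) (t10 := t01)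
        hρ hl ρ0 l0 (fun t ht => by have := hw t ht; linarith) hbe0 hbe1 hal0 hal1 hX1 hn1 hx1 hm1 gb0 q4 q5 q1 q2
        d00' d00 d10 d01' (by linarith) (by linarith) fb cb' fa ?_
      intro hd
      by_contra hcon
      push Not at hcon
      exact lt_irrefl ga (ca ga ⟨ga0, hd, hcon⟩)
  · rcases cb with cb | ⟨cb, cb'⟩
    · have q5 := cb _ b01
      refine caseA2B1 (H := H) (th := ga) (tp := gb) (t00 := t00) (t01 := t01) (t10 := t10) (be0 := be0) (X0 := X0)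
        (x0 := x0) (al0 := al0)
        hl hρ l0 ρ0 hw hal0 hal1 hbe0 hbe1 hx1 hm1 hX1 hn1 ga0 q2 q5 q3 q4
        d00 d00' d01' d10 p00 p01 fa ca' fb ?_
      intro hd
      by_contra hcon
      push Not at hcon
      exact lt_irrefl gb (cb gb ⟨gb0, hd, hcon⟩)
    · have h1 := caseA2B2_half hl hρ l0 ρ0 hal1 hbe0 hbe1 hx1 hm1 hX1 hn1 gb0 q4 cb d10 d10' p10 fb cb'
      have h2 := caseA2B2_half (l := ρ) (ρ := l) (x1 := X1) (X0 := x0) (X1 := x1) (al1 := be1) (be0 := al0)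
        (be1 := al1) (tb := ga) (t10 := t01) hρ hl ρ0 l0 hbe1 hal0 hal1 hX1 hn1 hx1 hm1 ga0 q2 ca d01' d01
        (by linarith) fa ca'
      linarith

/-- **The arc lemma.** -/
theorem arc {H : ℝ} {l ρ : ℝ → ℝ} (hl : ConcaveOn ℝ (Icc 0 H) l) (hρ : ConcaveOn ℝ (Icc 0 H) ρ)
    (cl : ContinuousOn l (Icc 0 H)) (cρ : ContinuousOn ρ (Icc 0 H))
    (l0 : l 0 = 0) (ρ0 : ρ 0 = 0) (hw : ∀ t ∈ Icc 0 H, 0 ≤ l t + ρ t)
    {al0 al1 be0 be1 x0 x1 X0 X1 : ℝ} (hal0 : 0 ≤ al0) (hal1 : 0 ≤ al1) (hbe0 : 0 ≤ be0)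
    (hbe1 : 0 ≤ be1) (hx0 : ρ al0 ≤ x0) (hx1 : ρ al1 ≤ x1) (hX0 : l be0 ≤ X0) (hX1 : l be1 ≤ X1)
    (hm0 : MonotoneOn ρ (Icc 0 al0)) (hm1 : MonotoneOn ρ (Icc 0 al1))
    (hn0 : MonotoneOn l (Icc 0 be0)) (hn1 : MonotoneOn l (Icc 0 be1))
    (P00 : ∃ t, 0 ≤ t ∧ al0 + t ≤ H ∧ be0 + t ≤ H ∧ x0 + X0 ≤ ρ (al0 + t) + l (be0 + t))
    (P01 : ∃ t, 0 ≤ t ∧ al0 + t ≤ H ∧ be1 + t ≤ H ∧ x0 + X1 ≤ ρ (al0 + t) + l (be1 + t))
    (P10 : ∃ t, 0 ≤ t ∧ al1 + t ≤ H ∧ be0 + t ≤ H ∧ x1 + X0 ≤ ρ (al1 + t) + l (be0 + t))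
    (P11 : ∃ t, 0 ≤ t ∧ al1 + t ≤ H ∧ be1 + t ≤ H ∧ x1 + X1 ≤ ρ (al1 + t) + l (be1 + t)) :
    (∃ t, t ∈ RA H l ρ al0 x0 ∧ t ∈ RA H l ρ al1 x1) ∨ (∃ t, t ∈ RA H ρ l be0 X0 ∧ t ∈ RA H ρ l be1 X1) := by
  by_contra hcon
  push Not at hcon
  obtain ⟨hA, hB⟩ := hcon
  have hw' : ∀ t ∈ Icc 0 H, 0 ≤ ρ t + l t := fun t ht => by have := hw t ht; linarith
  have nA0 : (RA H l ρ al0 x0).Nonempty := by
    obtain ⟨t, s, d, d', p⟩ := P00
    exact RA_nonempty cl cρ l0 hw hal0 hx0 ⟨t, key hl l0.ge hbe0 hX0 s d d' p⟩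
  have nA1 : (RA H l ρ al1 x1).Nonempty := by
    obtain ⟨t, s, d, d', p⟩ := P10
    exact RA_nonempty cl cρ l0 hw hal1 hx1 ⟨t, key hl l0.ge hbe0 hX0 s d d' p⟩
  have nB0 : (RA H ρ l be0 X0).Nonempty := by
    obtain ⟨t, s, d, d', p⟩ := P00
    exact RA_nonempty cρ cl ρ0 hw' hbe0 hX0 ⟨t, key hρ ρ0.ge hal0 hx0 s d' d (by linarith)⟩
  have nB1 : (RA H ρ l be1 X1).Nonempty := by
    obtain ⟨t, s, d, d', p⟩ := P01
    exact RA_nonempty cρ cl ρ0 hw' hbe1 hX1 ⟨t, key hρ ρ0.ge hal0 hx0 s d' d (by linarith)⟩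
  have P00' : ∃ t, 0 ≤ t ∧ al0 + t ≤ H ∧ be0 + t ≤ H ∧ x0 + X0 ≤ ρ (al0 + t) + l (be0 + t) := P00
  rcases gap (RA_compact cl cρ hal1) (RA_compact cl cρ hal0) (RA_ord hl hρ hal1) (RA_ord hl hρ hal0) nA1 nA0
    (fun t ht => hA t ht.2 ht.1) with ⟨ga, ha1, ha0⟩ | ⟨ga, ha0, ha1⟩
  · have SA := sep_of_gap hl hρ hal0 hal1 nA0 nA1 ha1 ha0
    rcases gap (RA_compact cρ cl hbe1) (RA_compact cρ cl hbe0) (RA_ord hρ hl hbe1) (RA_ord hρ hl hbe0) nB1 nB0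
      (fun t ht => hB t ht.2 ht.1) with ⟨gb, hb1, hb0⟩ | ⟨gb, hb0, hb1⟩
    · exact core hl hρ l0.ge ρ0.ge hw hal0 hal1 hbe0 hbe1 hx0 hx1 hX0 hX1 hm1 hn1 P00 P01 P10 SA
        (sep_of_gap hρ hl hbe0 hbe1 nB0 nB1 hb1 hb0)
    · exact core hl hρ l0.ge ρ0.ge hw hal0 hal1 hbe1 hbe0 hx0 hx1 hX1 hX0 hm1 hn0 P01 P00 P11 SA
        (sep_of_gap hρ hl hbe1 hbe0 nB1 nB0 hb0 hb1)
  · have SA := sep_of_gap hl hρ hal1 hal0 nA1 nA0 ha0 ha1
    rcases gap (RA_compact cρ cl hbe1) (RA_compact cρ cl hbe0) (RA_ord hρ hl hbe1) (RA_ord hρ hl hbe0) nB1 nB0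
      (fun t ht => hB t ht.2 ht.1) with ⟨gb, hb1, hb0⟩ | ⟨gb, hb0, hb1⟩
    · exact core hl hρ l0.ge ρ0.ge hw hal1 hal0 hbe0 hbe1 hx1 hx0 hX0 hX1 hm0 hn1 P10 P11 P00' SA
        (sep_of_gap hρ hl hbe0 hbe1 nB0 nB1 hb1 hb0)
    · exact core hl hρ l0.ge ρ0.ge hw hal1 hal0 hbe1 hbe0 hx1 hx0 hX1 hX0 hm0 hn0 P11 P10 P01 SA
        (sep_of_gap hρ hl hbe1 hbe0 nB1 nB0 hb0 hb1)

end Pool.Agent.H32.F1
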